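import Pool.Agent.Helper10.SP.GoalsI

/-!
Packet SP-DISF: the transversal pseudogroup is discrete.
-/

set_option autoImplicit false

open Complex Metric Set Filter Topology MeasureTheory
open scoped ContDiff ComplexConjugate ComplexOrder Manifold

namespace Pool.Agent.Helper25.SP

open Pool.Agent.Helper10.SP

universe u

/-- DISF. -/
theorem disf (hFG : S_FG) (hPER : S_PER) (hZZ : S_ZZ) (hRK1 : S_RK1.{u}) (hBOCF : S_BOCF.{u}) :
    S_DISF.{u} := by
  intro b N G _ c R Rel P Φ C H h
  rcases hFG c R P Φ C h.fol with hd | ⟨m, V, hV⟩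
  · exact hd
  · exfalso
    obtain ⟨lam, hl⟩ := hPER c R P Φ C h.fol
    rcases hZZ c R P Φ C h.fol lam hl m V hV with ⟨m', V', hV', hk⟩ | hr
    · exact hBOCF c R Rel P Φ C H h lam hl m' V' hV' hk
    · exact hRK1 c R Rel P Φ C H h lam hl m V hV hr

end Pool.Agent.Helper25.SP
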